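import Pool.Agent.Work.MP_0f91f8_co.KT.GenT
import Pool.Agent.Work.MP_0f91f8_co.RC.StmtsE
import Pool.Agent.Work.MP_0f91f8_co.EF.FinF

/-!
# MP_0f91f8_co, block BH (BelowHalf): definitions

THEOREM BH (certificate of helper75).  Every set of positive integers whose multiplicative density is larger than
`315/632 = 1/2 - 1/632` contains a Pythagorean triple.

A system `Sy μ T`: a finitely additive probability `μ` on all subsets of `Ω` and commuting maps `T n` (`T (a b) = T a ∘ T b`) which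
preserve `μ`.  For a set `A` write `A_n = {ω | T n ω ∈ A}`, `d = μ A`.
-/

set_option autoImplicit false

noncomputable section

namespace Pool.Agent.F0f91f8.BH

open Filter Topology
open Pool.Agent.Work.MP_0f91f8_co.EF
open Pool.Agent.F0f91f8.RC

/-- a finitely additive system of dilations -/
structure Sy {Ω : Type} (μ : Set Ω → ℝ) (T : ℕ → Ω → Ω) : Prop where
  fa : IsFA μ
  mul : ∀ a b ω, T (a * b) ω = T a (T b ω)
  inv : ∀ k, 0 < k → ∀ S : Set Ω, μ {ω | T k ω ∈ S} = μ S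

section
variable {Ω : Type}

/-- `A_n` -/
def Pb (T : ℕ → Ω → Ω) (A : Set Ω) (n : ℕ) : Set Ω := {ω | T n ω ∈ A}

/-- all three of `x, y, z` -/
def Mn (T : ℕ → Ω → Ω) (A : Set Ω) (x y z : ℕ) : Set Ω := {ω | T x ω ∈ A ∧ T y ω ∈ A ∧ T z ω ∈ A}

/-- an odd number of `x, y, z` (one or three) -/
def Od (T : ℕ → Ω → Ω) (A : Set Ω) (x y z : ℕ) : Set Ω := {ω | T x ω ∈ A ↔ (T y ω ∈ A ↔ T z ω ∈ A)}

/-- exactly one of `a, b` -/
def Wd (T : ℕ → Ω → Ω) (A : Set Ω) (a b : ℕ) : Set Ω := {ω | ¬ (T a ω ∈ A ↔ T b ω ∈ A)}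

/-- the sum of the three pair returns minus its mean -/
def Sp (μ : Set Ω → ℝ) (T : ℕ → Ω → Ω) (B : Set Ω) (x y z : ℕ) : ℝ :=
  μ (Pb T B x ∩ Pb T B y) + μ (Pb T B x ∩ Pb T B z) + μ (Pb T B y ∩ Pb T B z) - 3 * μ B ^ 2

end

/-- positive Pythagorean triples -/
def PT (x y z : ℕ) : Prop := 0 < x ∧ 0 < y ∧ 0 < z ∧ x ^ 2 + y ^ 2 = z ^ 2

/-- a certificate: `K` Pythagorean triples in which exactly one integer `m` occurs an odd number of times -/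
def Cert (K : ℕ) : Prop := ∃ (a b c : Fin K → ℕ) (m : ℕ), 0 < m ∧ (∀ j, PT (a j) (b j) (c j)) ∧
  ∀ f : ℕ → ZMod 2, f m = ∑ j, (f (a j) + f (b j) + f (c j))

/-- the theorem for systems -/
def SysBH (K : ℕ) : Prop := ∀ (Ω : Type) (μ : Set Ω → ℝ) (T : ℕ → Ω → Ω), Sy μ T → ∀ (A : Set Ω) (ε : ℝ), 0 < ε →
  ∃ x y z : ℕ, PT x y z ∧ (42 * K + 2) * μ A - 21 * K - ε ≤ 56 * K * μ (Mn T A x y z)

open Classical in
/-- the finite form -/
def FinBH (K : ℕ) : Prop := ∀ ε : ℝ, 0 < ε → ∃ (k : ℕ) (δ : ℝ), 0 < δ ∧ ∀ F : Finset ℕ, F.Nonempty →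
  (∀ n ∈ F, 0 < n) →
  (∀ p ≤ k, p.Prime → (1 - δ) * (F.card : ℝ) ≤ ((F.filter fun n => p * n ∈ F).card : ℝ)) →
  ∀ A : Finset ℕ, A ⊆ F → ∃ x y z : ℕ, PT x y z ∧ x ≤ k ∧ y ≤ k ∧ z ≤ k ∧
    (42 * K + 2) * (A.card : ℝ) - 21 * K * (F.card : ℝ) - ε * (F.card : ℝ) ≤
      56 * K * ((F.filter fun n => x * n ∈ A ∧ y * n ∈ A ∧ z * n ∈ A).card : ℝ)

end Pool.Agent.F0f91f8.BH
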