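import Pool.Agent.Work.MP_0f91f8_co.BH.Proc

/-!
# Below half: the finite counting form

The limit process follows the items Ulm (helper10), Fnl (helper33) and Fol (helper16) of module E.
-/

set_option autoImplicit false

noncomputable section

namespace Pool.Agent.F0f91f8.BH

open Filter Topology
open Pool.Agent.Work.MP_0f91f8_co.EF

open scoped Classical

/-- the action of the positive integers on the second coordinate -/
def sh (k : ℕ) (p : ℕ × ℕ) : ℕ × ℕ := (p.1, k * p.2)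

/-- the limit process of a Foelner sequence of finite sets -/
theorem limit (F A : ℕ → Finset ℕ) (hFo : IsFo F) (hAF : ∀ j, A j ⊆ F j) :
    ∃ (U : Ultrafilter ℕ) (μ : Set (ℕ × ℕ) → ℝ), (U : Filter ℕ) ≤ atTop ∧ Act μ sh ∧
      ∀ S, Tendsto (XUlm.qq F S) U (𝓝 (μ S)) := by
  obtain ⟨U, μ, d, hU, hFA, hlim, -, -, -⟩ := XFinG.ulh 1 F (fun j _ => A j) hFo fun j _ => hAF j
  refine ⟨U, μ, hU, ⟨hFA, ?_, ?_⟩, hlim⟩
  · rintro a b ⟨j, s⟩
    simp only [sh, mul_assoc]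
  · intro k hk S
    have hdef : Tendsto (fun j => 1 - (((F j).filter fun s => k * s ∈ F j).card : ℝ) /
        ((F j).card : ℝ)) U (𝓝 0) := by
      have h1 := (hFo.lim k hk).mono_left hU
      have h2 := h1.const_sub 1
      rw [sub_self] at h2
      exact h2
    refine XUlm.uniq U _ _ _ _ _ (hlim _) (hlim _) hdef fun j => ?_
    have hsub : ((F j).filter fun s => (j, s) ∈ S) ⊆ F j := Finset.filter_subset _ _
    obtain ⟨h1, h2⟩ := XUlm.shift (F j) _ hsub k hk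
    have h3 : ((F j).filter fun s => k * s ∈ (F j).filter fun s => (j, s) ∈ S).card ≤
        ((F j).filter fun s => (j, k * s) ∈ S).card := by
      refine Finset.card_le_card fun s hs => ?_
      obtain ⟨h4, h5⟩ := Finset.mem_filter.1 hs
      exact Finset.mem_filter.2 ⟨h4, (Finset.mem_filter.1 h5).2⟩
    have h6 : ((F j).filter fun s => (j, k * s) ∈ S).card ≤
        ((F j).filter fun s => k * s ∈ (F j).filter fun s => (j, s) ∈ S).card +
          ((F j).filter fun s => ¬ k * s ∈ F j).card := by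
      refine le_trans (Finset.card_le_card fun s hs => ?_) (Finset.card_union_le _ _)
      obtain ⟨h4, h5⟩ := Finset.mem_filter.1 hs
      by_cases h7 : k * s ∈ F j
      · exact Finset.mem_union_left _ (Finset.mem_filter.2 ⟨h4, Finset.mem_filter.2 ⟨h7, h5⟩⟩)
      · exact Finset.mem_union_right _ (Finset.mem_filter.2 ⟨h4, h7⟩)
    have h8 : ((F j).filter fun s => k * s ∈ F j).card +
        ((F j).filter fun s => ¬ k * s ∈ F j).card = (F j).card :=
      Finset.card_filter_add_card_filter_not _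
    rw [XUlm.qq_eq F (sh k ⁻¹' S) j ((F j).filter fun s => (j, k * s) ∈ S)
      (fun s => Finset.mem_filter), XUlm.qq_eq F S j ((F j).filter fun s => (j, s) ∈ S)
      (fun s => Finset.mem_filter)]
    refine XUlm.absd _ _ _ _ (Finset.card_pos.2 (hFo.ne j)) ?_ ?_
    · omega
    · omega

/-- The statement of the hand-in. -/
def BHF : Prop := ∀ ε : ℝ, 0 < ε → ∃ (k : ℕ) (δ : ℝ), 0 < δ ∧ ∀ F : Finset ℕ, F.Nonempty →
  (∀ n ∈ F, 0 < n) →
  (∀ p : ℕ, p ≤ k → p.Prime →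
    (1 - δ) * (F.card : ℝ) ≤ ((F.filter fun n => p * n ∈ F).card : ℝ)) →
  ∀ A : Finset ℕ, A ⊆ F →
  ∃ x y z : ℕ, 0 < x ∧ 0 < y ∧ 0 < z ∧ x ≤ k ∧ y ≤ k ∧ z ≤ k ∧ x ^ 2 + y ^ 2 = z ^ 2 ∧
    632 * (A.card : ℝ) ≤ 315 * (F.card : ℝ) +
      840 * ((F.filter fun n => x * n ∈ A ∧ y * n ∈ A ∧ z * n ∈ A).card : ℝ) +
      ε * (F.card : ℝ)

theorem bhf (hG : GenF) : BHF := by
  intro ε hε
  by_contra hcon
  have hcon' : ∀ j : ℕ, ∃ F : Finset ℕ, F.Nonempty ∧ (∀ n ∈ F, 0 < n) ∧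
      (∀ p ≤ j, p.Prime → (1 - 1 / ((j : ℝ) + 1)) * (F.card : ℝ) ≤
        ((F.filter fun n => p * n ∈ F).card : ℝ)) ∧
      ∃ A : Finset ℕ, A ⊆ F ∧
      ∀ x y z : ℕ, 0 < x → 0 < y → 0 < z → x ≤ j → y ≤ j → z ≤ j → x ^ 2 + y ^ 2 = z ^ 2 →
        315 * (F.card : ℝ) +
          840 * ((F.filter fun n => x * n ∈ A ∧ y * n ∈ A ∧ z * n ∈ A).card : ℝ) +
          ε * (F.card : ℝ) ≤ 632 * (A.card : ℝ) := by
    intro j
    by_contra hno
    apply hcon
    refine ⟨j, 1 / ((j : ℝ) + 1), by positivity, fun F a1 a2 a3 A a4 => ?_⟩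
    by_contra a7
    refine hno ⟨F, a1, a2, a3, A, a4, fun x y z c1 c2 c3 c4 c5 c6 c7 => ?_⟩
    by_contra c8
    exact a7 ⟨x, y, z, c1, c2, c3, c4, c5, c6, c7, (not_le.1 c8).le⟩
  choose F hne hpos hinv0 A hA hno using hcon'
  have hFo := XFinF.isFo_of hne hpos fun j p hp1 hp2 => hinv0 j p hp1 hp2
  obtain ⟨U, μ, hU, hact, hlim⟩ := limit F A hFo hA
  have hF : ∀ j, (0 : ℝ) < ((F j).card : ℝ) := fun j => by
    exact_mod_cast (hne j).card_pos
  obtain ⟨B, hB⟩ : ∃ B : Set (ℕ × ℕ), B = {p | p.2 ∈ A p.1} := ⟨_, rfl⟩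
  have hd : ∀ j, XUlm.qq F B j = ((A j).card : ℝ) / ((F j).card : ℝ) := fun j =>
    XUlm.qq_eq F B j (A j) fun s => by
      rw [hB]
      exact ⟨fun h => ⟨hA j h, h⟩, fun h => h.2⟩
  have hc : ∀ x y z : ℕ, 0 < x → 0 < y → 0 < z → x ^ 2 + y ^ 2 = z ^ 2 →
      μ (sh x ⁻¹' B ∩ sh y ⁻¹' B ∩ sh z ⁻¹' B) ≤ (632 * μ B - 315 - ε) / 840 := by
    intro x y z hx hy hz hxyz
    refine le_of_tendsto_of_tendsto (hlim _)
      ((((hlim B).const_mul 632).sub_const 315).sub_const ε |>.div_const 840) ?_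
    filter_upwards [hU (eventually_ge_atTop (max x (max y z)))] with j hj
    rw [hd, XUlm.qq_eq F _ j ((F j).filter fun n => x * n ∈ A j ∧ y * n ∈ A j ∧ z * n ∈ A j)
      (fun s => by
        rw [Finset.mem_filter, hB]
        exact ⟨fun h => ⟨h.1, ⟨h.2.1, h.2.2.1⟩, h.2.2.2⟩,
          fun h => ⟨h.1, h.2.1.1, h.2.1.2, h.2.2⟩⟩)]
    have := hno j x y z hx hy hz (by omega) (by omega) (by omega) hxyz
    have hFj := hF j
    rw [div_le_iff₀ hFj]
    field_simp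
    linarith
  have h1 := proc hG hact B _ hc
  nlinarith [sq_nonneg (2 * μ B - 1)]

theorem all_BHF : BHF := bhf (ef_Gen all_PW)

end Pool.Agent.F0f91f8.BH
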