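import Pool.Agent.Work.MP_0f91f8_co.BH.Stmts

set_option autoImplicit false

/-! Item Ce of block BH: the certificate with fifteen triples. -/

namespace Pool.Agent.F0f91f8.BH

namespace XCe

/-- the first numbers -/
def a : Fin 15 → ℕ := ![99, 132, 165, 468, 624, 780, 900, 500, 680, 832, 275, 900, 176, 680, 99]

/-- the second numbers -/
def b : Fin 15 → ℕ :=
  ![132, 176, 220, 624, 832, 1040, 1200, 1200, 1632, 1560, 1500, 1365, 468, 1365, 1632]

/-- the third numbers -/
def c : Fin 15 → ℕ :=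
  ![165, 220, 275, 780, 1040, 1300, 1500, 1300, 1768, 1768, 1525, 1635, 500, 1525, 1635]

theorem pt : ∀ j, 0 < a j ∧ 0 < b j ∧ 0 < c j ∧ a j ^ 2 + b j ^ 2 = c j ^ 2 := by decide

theorem sm (f : ℕ → ZMod 2) : f 1560 = ∑ j, (f (a j) + f (b j) + f (c j)) := by
  have h2 : (2 : ZMod 2) = 0 := by decide
  have e : ∑ j, (f (a j) + f (b j) + f (c j)) =
      (f 99 + f 132 + f 165) + (f 132 + f 176 + f 220) + (f 165 + f 220 + f 275) +
      (f 468 + f 624 + f 780) + (f 624 + f 832 + f 1040) + (f 780 + f 1040 + f 1300) +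
      (f 900 + f 1200 + f 1500) + (f 500 + f 1200 + f 1300) + (f 680 + f 1632 + f 1768) +
      (f 832 + f 1560 + f 1768) + (f 275 + f 1500 + f 1525) + (f 900 + f 1365 + f 1635) +
      (f 176 + f 468 + f 500) + (f 680 + f 1365 + f 1525) + (f 99 + f 1632 + f 1635) := by
    simp only [Fin.sum_univ_succ, Fin.sum_univ_zero, a, b, c]
    simp only [Matrix.cons_val_zero, Matrix.cons_val_succ, add_zero]
    ring
  rw [e]
  linear_combination -(f 99 + f 132 + f 165 + f 176 + f 220 + f 275 + f 468 + f 624 + f 780 +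
    f 832 + f 1040 + f 1300 + f 900 + f 1200 + f 1500 + f 500 + f 680 + f 1632 + f 1768 +
    f 1525 + f 1365 + f 1635) * h2

end XCe

theorem pr_Ce : StCe :=
  ⟨XCe.a, XCe.b, XCe.c, 1560, by norm_num, XCe.pt, XCe.sm⟩

end Pool.Agent.F0f91f8.BH
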