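import Pool.Agent.Work.MP_0f91f8_co.BH.Stmts

/-!
# MP_0f91f8_co, block BH: item Cn
-/

set_option autoImplicit false

noncomputable section

namespace Pool.Agent.F0f91f8.BH

open Filter Topology
open Pool.Agent.Work.MP_0f91f8_co.EF
open Pool.Agent.F0f91f8.RC

namespace XCn

variable {Ω : Type} {μ : Set Ω → ℝ}

theorem four (h : IsFA μ) (S E0 E1 E2 E3 : Set Ω) (hS : S = E0 ∪ (E1 ∪ (E2 ∪ E3)))
    (d0 : Disjoint E0 (E1 ∪ (E2 ∪ E3))) (d1 : Disjoint E1 (E2 ∪ E3)) (d2 : Disjoint E2 E3) :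
    μ S = μ E0 + (μ E1 + (μ E2 + μ E3)) := by
  rw [hS, h.union _ _ d0, h.union _ _ d1, h.union _ _ d2]

theorem main (h : IsFA μ) (p q r : Ω → Prop) (d : ℝ) (hp : μ {ω | p ω} = d) (hq : μ {ω | q ω} = d)
    (hr : μ {ω | r ω} = d) :
    μ {ω | p ω ↔ (q ω ↔ r ω)} = μ {ω | ¬ (p ω ↔ q ω)} + μ {ω | ¬ (p ω ↔ r ω)} + μ {ω | ¬ (q ω ↔ r ω)}
      - 3 * d + 4 * μ {ω | p ω ∧ q ω ∧ r ω} := by
  have e1 := four h {ω | p ω ↔ (q ω ↔ r ω)} {ω | p ω ∧ q ω ∧ r ω} {ω | p ω ∧ ¬ q ω ∧ ¬ r ω}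
    {ω | ¬ p ω ∧ q ω ∧ ¬ r ω} {ω | ¬ p ω ∧ ¬ q ω ∧ r ω}
    (by ext ω; simp only [Set.mem_setOf_eq, Set.mem_union]; tauto)
    (Set.disjoint_left.2 (by intro ω; simp only [Set.mem_setOf_eq, Set.mem_union]; tauto))
    (Set.disjoint_left.2 (by intro ω; simp only [Set.mem_setOf_eq, Set.mem_union]; tauto))
    (Set.disjoint_left.2 (by intro ω; simp only [Set.mem_setOf_eq]; tauto))
  have e2 := four h {ω | ¬ (p ω ↔ q ω)} {ω | p ω ∧ ¬ q ω ∧ r ω} {ω | p ω ∧ ¬ q ω ∧ ¬ r ω}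
    {ω | ¬ p ω ∧ q ω ∧ r ω} {ω | ¬ p ω ∧ q ω ∧ ¬ r ω}
    (by ext ω; simp only [Set.mem_setOf_eq, Set.mem_union]; tauto)
    (Set.disjoint_left.2 (by intro ω; simp only [Set.mem_setOf_eq, Set.mem_union]; tauto))
    (Set.disjoint_left.2 (by intro ω; simp only [Set.mem_setOf_eq, Set.mem_union]; tauto))
    (Set.disjoint_left.2 (by intro ω; simp only [Set.mem_setOf_eq]; tauto))
  have e3 := four h {ω | ¬ (p ω ↔ r ω)} {ω | p ω ∧ q ω ∧ ¬ r ω} {ω | p ω ∧ ¬ q ω ∧ ¬ r ω}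
    {ω | ¬ p ω ∧ q ω ∧ r ω} {ω | ¬ p ω ∧ ¬ q ω ∧ r ω}
    (by ext ω; simp only [Set.mem_setOf_eq, Set.mem_union]; tauto)
    (Set.disjoint_left.2 (by intro ω; simp only [Set.mem_setOf_eq, Set.mem_union]; tauto))
    (Set.disjoint_left.2 (by intro ω; simp only [Set.mem_setOf_eq, Set.mem_union]; tauto))
    (Set.disjoint_left.2 (by intro ω; simp only [Set.mem_setOf_eq]; tauto))
  have e4 := four h {ω | ¬ (q ω ↔ r ω)} {ω | p ω ∧ q ω ∧ ¬ r ω} {ω | p ω ∧ ¬ q ω ∧ r ω}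
    {ω | ¬ p ω ∧ q ω ∧ ¬ r ω} {ω | ¬ p ω ∧ ¬ q ω ∧ r ω}
    (by ext ω; simp only [Set.mem_setOf_eq, Set.mem_union]; tauto)
    (Set.disjoint_left.2 (by intro ω; simp only [Set.mem_setOf_eq, Set.mem_union]; tauto))
    (Set.disjoint_left.2 (by intro ω; simp only [Set.mem_setOf_eq, Set.mem_union]; tauto))
    (Set.disjoint_left.2 (by intro ω; simp only [Set.mem_setOf_eq]; tauto))
  have e5 := four h {ω | p ω} {ω | p ω ∧ q ω ∧ r ω} {ω | p ω ∧ q ω ∧ ¬ r ω}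
    {ω | p ω ∧ ¬ q ω ∧ r ω} {ω | p ω ∧ ¬ q ω ∧ ¬ r ω}
    (by ext ω; simp only [Set.mem_setOf_eq, Set.mem_union]; tauto)
    (Set.disjoint_left.2 (by intro ω; simp only [Set.mem_setOf_eq, Set.mem_union]; tauto))
    (Set.disjoint_left.2 (by intro ω; simp only [Set.mem_setOf_eq, Set.mem_union]; tauto))
    (Set.disjoint_left.2 (by intro ω; simp only [Set.mem_setOf_eq]; tauto))
  have e6 := four h {ω | q ω} {ω | p ω ∧ q ω ∧ r ω} {ω | p ω ∧ q ω ∧ ¬ r ω}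
    {ω | ¬ p ω ∧ q ω ∧ r ω} {ω | ¬ p ω ∧ q ω ∧ ¬ r ω}
    (by ext ω; simp only [Set.mem_setOf_eq, Set.mem_union]; tauto)
    (Set.disjoint_left.2 (by intro ω; simp only [Set.mem_setOf_eq, Set.mem_union]; tauto))
    (Set.disjoint_left.2 (by intro ω; simp only [Set.mem_setOf_eq, Set.mem_union]; tauto))
    (Set.disjoint_left.2 (by intro ω; simp only [Set.mem_setOf_eq]; tauto))
  have e7 := four h {ω | r ω} {ω | p ω ∧ q ω ∧ r ω} {ω | p ω ∧ ¬ q ω ∧ r ω}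
    {ω | ¬ p ω ∧ q ω ∧ r ω} {ω | ¬ p ω ∧ ¬ q ω ∧ r ω}
    (by ext ω; simp only [Set.mem_setOf_eq, Set.mem_union]; tauto)
    (Set.disjoint_left.2 (by intro ω; simp only [Set.mem_setOf_eq, Set.mem_union]; tauto))
    (Set.disjoint_left.2 (by intro ω; simp only [Set.mem_setOf_eq, Set.mem_union]; tauto))
    (Set.disjoint_left.2 (by intro ω; simp only [Set.mem_setOf_eq]; tauto))
  linarith

end XCn

/-- **Cn**. -/
theorem pr_Cn : StCn := by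
  intro Ω μ T hS A a b c ha hb hc
  exact XCn.main hS.fa (fun ω => T a ω ∈ A) (fun ω => T b ω ∈ A) (fun ω => T c ω ∈ A) (μ A)
    (hS.inv a ha A) (hS.inv b hb A) (hS.inv c hc A)

end Pool.Agent.F0f91f8.BH
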