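import Pool.Agent.Work.MP_0f91f8_co.BH.Stmts

/-!
# MP_0f91f8_co, block BH (BelowHalf): item Fn (the finite form)
-/

set_option autoImplicit false

noncomputable section

namespace Pool.Agent.F0f91f8.BH

open Filter Topology
open Pool.Agent.Work.MP_0f91f8_co.EF
open Pool.Agent.F0f91f8.RC

open Classical in
theorem pr_Fn (h : StLi) : StFn := by
  intro K hS ε hε
  by_contra hcon
  have hcon' : ∀ j : ℕ, ∃ F : Finset ℕ, F.Nonempty ∧ (∀ n ∈ F, 0 < n) ∧
      (∀ p ≤ j, p.Prime → (1 - 1 / ((j : ℝ) + 1)) * (F.card : ℝ) ≤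
        ((F.filter fun n => p * n ∈ F).card : ℝ)) ∧
      ∃ A : Finset ℕ, A ⊆ F ∧ ∀ x y z : ℕ, PT x y z → x ≤ j → y ≤ j → z ≤ j →
        56 * K * ((F.filter fun n => x * n ∈ A ∧ y * n ∈ A ∧ z * n ∈ A).card : ℝ) <
          (42 * K + 2) * (A.card : ℝ) - 21 * K * (F.card : ℝ) - ε * (F.card : ℝ) := by
    intro j
    by_contra hno
    apply hcon
    refine ⟨j, 1 / ((j : ℝ) + 1), by positivity, fun F a1 a2 a3 A a4 => ?_⟩
    by_contra a5
    refine hno ⟨F, a1, a2, a3, A, a4, fun x y z hP hx hy hz => ?_⟩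
    by_contra a6
    exact a5 ⟨x, y, z, hP, hx, hy, hz, not_lt.1 a6⟩
  choose F hne hpos hinv A hA hno using hcon'
  have hFo : IsFo F := XFinF.isFo_of hne hpos fun j p h1 h2 => hinv j p h1 h2
  obtain ⟨U, μ, hU, hSy, hlim⟩ := h F hFo
  obtain ⟨x, y, z, hPT, hin⟩ := hS (ℕ × ℕ) μ _ hSy {p | p.2 ∈ A p.1} (ε / 2) (by linarith)
  have hF : ∀ j, (0 : ℝ) < ((F j).card : ℝ) := fun j => by
    exact_mod_cast (hne j).card_pos
  have key : ∀ (S : Set (ℕ × ℕ)) (j : ℕ) (B : Finset ℕ), (∀ s, s ∈ B ↔ s ∈ F j ∧ (j, s) ∈ S) →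
      ((F j).filter fun s => (j, s) ∈ S) = B := by
    intro S j B hB
    ext s
    rw [Finset.mem_filter, hB s]
  have l1 : Tendsto (fun j => ((A j).card : ℝ) / ((F j).card : ℝ)) U
      (𝓝 (μ {p | p.2 ∈ A p.1})) := by
    refine (hlim {p | p.2 ∈ A p.1}).congr fun j => ?_
    rw [key {p | p.2 ∈ A p.1} j (A j) fun s => ⟨fun q => ⟨hA j q, q⟩, fun q => q.2⟩]
  have l2 : Tendsto (fun j => (((F j).filter fun n => x * n ∈ A j ∧ y * n ∈ A j ∧
      z * n ∈ A j).card : ℝ) / ((F j).card : ℝ)) U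
      (𝓝 (μ (Mn (fun k p => (p.1, k * p.2)) {p : ℕ × ℕ | p.2 ∈ A p.1} x y z))) := by
    refine (hlim _).congr fun j => ?_
    rw [key _ j ((F j).filter fun n => x * n ∈ A j ∧ y * n ∈ A j ∧ z * n ∈ A j)
      fun s => Finset.mem_filter]
  have hev : ∀ᶠ j in (U : Filter ℕ), 56 * K * ((((F j).filter fun n => x * n ∈ A j ∧ y * n ∈ A j ∧
      z * n ∈ A j).card : ℝ) / ((F j).card : ℝ)) ≤
      (42 * K + 2) * (((A j).card : ℝ) / ((F j).card : ℝ)) - 21 * K - ε := by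
    have h1 : ∀ᶠ j in (atTop : Filter ℕ), x + y + z ≤ j := eventually_ge_atTop _
    filter_upwards [hU h1] with j hj
    have h2 := hno j x y z hPT (by omega) (by omega) (by omega)
    have h3 := hF j
    have h4 : (42 * K + 2) * (((A j).card : ℝ) / ((F j).card : ℝ)) - 21 * K - ε =
        ((42 * K + 2) * ((A j).card : ℝ) - 21 * K * ((F j).card : ℝ) - ε * ((F j).card : ℝ)) /
          ((F j).card : ℝ) := by
      field_simp
    rw [h4, ← mul_div_assoc]
    exact div_le_div_of_nonneg_right h2.le h3.le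
  have hfin := le_of_tendsto_of_tendsto (l2.const_mul (56 * (K : ℝ)))
    (((l1.const_mul (42 * (K : ℝ) + 2)).sub_const (21 * (K : ℝ))).sub_const ε) hev
  linarith

end Pool.Agent.F0f91f8.BH
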