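import Pool.Agent.Work.MP_0f91f8_co.BH.Stmts

set_option autoImplicit false

noncomputable section

namespace Pool.Agent.F0f91f8.BH

open Filter Topology
open Pool.Agent.Work.MP_0f91f8_co.EF
open Pool.Agent.F0f91f8.RC

namespace XGn

/-- the sum of the three values of the kernel of a set -/
theorem ker_sum (h2 : StPk) {Ω : Type} {μ : Set Ω → ℝ} {T : ℕ → Ω → Ω} (hS : Sy μ T) (B : Set Ω)
    {x y z : ℕ} (hx : 0 < x) (hy : 0 < y) (hz : 0 < z) :
    ker μ (Pb T B) (fun _ => Set.univ) (μ B) 1 x y + ker μ (Pb T B) (fun _ => Set.univ) (μ B) 1 x z +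
      ker μ (Pb T B) (fun _ => Set.univ) (μ B) 1 y z = Sp μ T B x y z := by
  have h := (h2 Ω μ T hS B).2
  rw [h x y hx hy, h x z hx hz, h y z hy hz]
  unfold Sp
  ring

end XGn

theorem pr_Gn (h1 : KT.GenTL) (h2 : StPk) : StGn := by
  intro Ω μ T hS A W ι _ B ε hε
  obtain ⟨x, y, z, hx, hy, hz, hxyz, -, -, -, -, hle⟩ := h1 1 1 0 one_pos one_pos
    (fun j => j.elim0) (fun j => j.elim0) (W + Fintype.card ι)
    (Fin.append (fun _ : Fin W => ker μ (Pb T A) (fun _ => Set.univ) (μ A) 1)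
      (fun i : Fin (Fintype.card ι) =>
        ker μ (Pb T (B ((Fintype.equivFin ι).symm i))) (fun _ => Set.univ)
          (μ (B ((Fintype.equivFin ι).symm i))) 1))
    (by
      intro i
      refine Fin.addCases (fun j => ?_) (fun j => ?_) i
      · rw [Fin.append_left]
        exact (h2 Ω μ T hS A).1
      · rw [Fin.append_right]
        exact (h2 Ω μ T hS _).1) ε hε
  refine ⟨x, y, z, ⟨hx, hy, hz, hxyz⟩, ?_⟩
  rw [Fin.sum_univ_add] at hle
  simp only [Fin.append_left, Fin.append_right] at hle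
  rw [Finset.sum_const, Finset.card_univ, Fintype.card_fin, nsmul_eq_mul,
    XGn.ker_sum h2 hS A hx hy hz] at hle
  have h3 : ∑ i : Fin (Fintype.card ι),
      (ker μ (Pb T (B ((Fintype.equivFin ι).symm i))) (fun _ => Set.univ)
          (μ (B ((Fintype.equivFin ι).symm i))) 1 x y +
        ker μ (Pb T (B ((Fintype.equivFin ι).symm i))) (fun _ => Set.univ)
          (μ (B ((Fintype.equivFin ι).symm i))) 1 x z +
        ker μ (Pb T (B ((Fintype.equivFin ι).symm i))) (fun _ => Set.univ)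
          (μ (B ((Fintype.equivFin ι).symm i))) 1 y z) = ∑ i, Sp μ T (B i) x y z := by
    rw [← Equiv.sum_comp (Fintype.equivFin ι).symm (fun i => Sp μ T (B i) x y z)]
    exact Finset.sum_congr rfl fun i _ => XGn.ker_sum h2 hS _ hx hy hz
  rw [h3] at hle
  exact hle

end Pool.Agent.F0f91f8.BH
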