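import Pool.Agent.Work.MP_0f91f8_co.BH.Stmts

/-!
# MP_0f91f8_co, block BH, item Li: the limit along an ultrafilter
-/

set_option autoImplicit false

noncomputable section

namespace Pool.Agent.F0f91f8.BH

open Filter Topology
open Pool.Agent.Work.MP_0f91f8_co.EF
open Pool.Agent.F0f91f8.RC

namespace XLi

open scoped Classical in
theorem sh (F : Finset ℕ) (S : ℕ → Prop) (k : ℕ) (hk : 0 < k) :
    (F.filter fun s => S (k * s)).card + (F.filter fun s => k * s ∈ F).card ≤
        (F.filter fun s => S s).card + F.card ∧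
      (F.filter fun s => S s).card + (F.filter fun s => k * s ∈ F).card ≤
        (F.filter fun s => S (k * s)).card + F.card := by
  obtain ⟨T, hT⟩ : ∃ T, T = F.filter fun s => S s := ⟨_, rfl⟩
  obtain ⟨P, hP⟩ : ∃ P, P = F.filter fun s => S (k * s) := ⟨_, rfl⟩
  obtain ⟨E, hE⟩ : ∃ E, E = F.filter fun s => k * s ∈ F := ⟨_, rfl⟩
  obtain ⟨Q, hQ⟩ : ∃ Q, Q = F.filter fun s => k * s ∈ T := ⟨_, rfl⟩
  rw [← hT, ← hP, ← hE]
  have hTF : T ⊆ F := by rw [hT]; exact Finset.filter_subset _ _
  have h1 := XUlm.shift F T hTF k hk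
  have hQ' : (F.filter fun s => k * s ∈ T).card = Q.card := by rw [hQ]
  have hE' : (F.filter fun s => k * s ∈ F).card = E.card := by rw [hE]
  have h1a : Q.card ≤ T.card := by
    rw [← hQ']
    refine le_trans (le_of_eq ?_) h1.1
    congr
  have h1b : T.card + E.card ≤ Q.card + F.card := by
    rw [← hQ', ← hE']
    refine le_trans (le_of_eq ?_) (le_trans h1.2 (le_of_eq ?_)) <;> congr
  have hQP : Q ⊆ P := by
    intro s hs
    rw [hQ, Finset.mem_filter, hT, Finset.mem_filter] at hs
    rw [hP, Finset.mem_filter]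
    exact ⟨hs.1, hs.2.2⟩
  have h2 := Finset.card_le_card hQP
  have h3 := Finset.card_union_add_card_inter P E
  have h4 : (P ∪ E).card ≤ F.card := by
    refine Finset.card_le_card (Finset.union_subset ?_ ?_)
    · rw [hP]; exact Finset.filter_subset _ _
    · rw [hE]; exact Finset.filter_subset _ _
  have h5 : (P ∩ E).card ≤ Q.card := by
    refine Finset.card_le_card fun s hs => ?_
    obtain ⟨h6, h7⟩ := Finset.mem_inter.1 hs
    rw [hP, Finset.mem_filter] at h6
    rw [hE, Finset.mem_filter] at h7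
    rw [hQ, Finset.mem_filter, hT, Finset.mem_filter]
    exact ⟨h6.1, h7.2, h6.2⟩
  omega

end XLi

open scoped Classical in
open XUlm in
theorem pr_Li : StLi := by
  intro F hFo
  have hFne : ∀ j, 0 < (F j).card := fun j => Finset.card_pos.2 (hFo.ne j)
  have hFR : ∀ j, (0 : ℝ) < (F j).card := fun j => by exact_mod_cast hFne j
  obtain ⟨U, hU⟩ : ∃ U : Ultrafilter ℕ, (U : Filter ℕ) ≤ atTop :=
    ⟨Ultrafilter.of atTop, Ultrafilter.of_le atTop⟩
  choose μ hμ hμl using fun S : Set (ℕ × ℕ) => ulim U (qq F S) (qq_mem F S)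
  have hdef : ∀ n : ℕ, 0 < n → Tendsto (fun j => 1 - (((F j).filter fun k => n * k ∈ F j).card : ℝ) /
      ((F j).card : ℝ)) U (𝓝 0) := by
    intro n hn
    have h1 := (hFo.lim n hn).mono_left hU
    have h2 := h1.const_sub 1
    rw [sub_self] at h2
    exact h2
  refine ⟨U, μ, hU, ⟨⟨fun S => (hμ S).1, ?_, ?_⟩, ?_, ?_⟩, fun S => ?_⟩
  · refine tendsto_nhds_unique (hμl Set.univ) ?_
    have h1 : qq F Set.univ = fun _ => (1 : ℝ) := by
      funext j
      unfold qq
      simp only [Set.mem_univ, Finset.filter_true]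
      exact div_self (hFR j).ne'
    rw [h1]
    exact tendsto_const_nhds
  · intro S T hST
    refine tendsto_nhds_unique (hμl (S ∪ T)) ?_
    have h1 : qq F (S ∪ T) = fun j => qq F S j + qq F T j := by
      funext j
      unfold qq
      rw [← add_div]
      congr 1
      rw [← Nat.cast_add, ← Finset.card_union_of_disjoint]
      · congr 2
        ext s
        simp only [Finset.mem_filter, Finset.mem_union, Set.mem_union]
        tauto
      · rw [Finset.disjoint_left]
        intro s hs hs'
        exact Set.disjoint_left.1 hST (Finset.mem_filter.1 hs).2 (Finset.mem_filter.1 hs').2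
    rw [h1]
    exact (hμl S).add (hμl T)
  · intro a b p
    simp only [mul_assoc]
  · intro k hk S
    refine uniq U _ _ _ _ _ (hμl _) (hμl _) (hdef k hk) fun j => ?_
    have h1 := XLi.sh (F j) (fun s => (j, s) ∈ S) k hk
    rw [qq_eq F {p : ℕ × ℕ | (p.1, k * p.2) ∈ S} j ((F j).filter fun s => (j, k * s) ∈ S)
      (fun s => Finset.mem_filter),
      qq_eq F S j ((F j).filter fun s => (j, s) ∈ S) (fun s => Finset.mem_filter)]
    exact absd _ _ _ _ (hFne j) h1.1 h1.2
  · refine (hμl S).congr fun j => ?_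
    unfold qq
    congr

end Pool.Agent.F0f91f8.BH
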