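import Pool.Agent.Work.MP_0f91f8_co.BH.Stmts

set_option autoImplicit false

noncomputable section

namespace Pool.Agent.F0f91f8.BH

open Filter Topology
open Pool.Agent.Work.MP_0f91f8_co.EF
open Pool.Agent.F0f91f8.RC

namespace XPa

variable {Ω : Type} {μ : Set Ω → ℝ}

theorem empty (h : IsFA μ) : μ ∅ = 0 := by
  have := h.union ∅ ∅ (by simp)
  simp at this
  exact this

theorem mono (h : IsFA μ) {A B : Set Ω} (hAB : A ⊆ B) : μ A ≤ μ B := by
  have h1 := h.union A (B \ A) Set.disjoint_sdiff_right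
  rw [Set.union_sdiff_cancel hAB] at h1
  have := h.nonneg (B \ A)
  linarith

theorem union_le (h : IsFA μ) (A B : Set Ω) : μ (A ∪ B) ≤ μ A + μ B := by
  have h1 := h.union A (B \ A) Set.disjoint_sdiff_right
  rw [Set.union_sdiff_self] at h1
  have := mono h (Set.sdiff_subset : B \ A ⊆ B)
  linarith

theorem sub (h : IsFA μ) {ι : Type} [DecidableEq ι] (s : Finset ι) (A : ι → Set Ω) :
    μ (⋃ i ∈ s, A i) ≤ ∑ i ∈ s, μ (A i) := by
  induction s using Finset.induction_on with
  | empty => simp [empty h]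
  | insert a s ha ih =>
    rw [Finset.sum_insert ha, Finset.set_biUnion_insert]
    exact (union_le h _ _).trans (by linarith)

end XPa

open XPa in
theorem pr_Pa : StPa := by
  classical
  intro Ω μ T hS A K a b c m hm hc
  have h1 : μ (Pb T A m) = μ A := hS.inv m hm A
  rw [← h1]
  refine le_trans (mono hS.fa ?_) (sub hS.fa Finset.univ _)
  intro ω hω
  by_contra hcon
  simp only [Set.mem_iUnion, Finset.mem_univ, exists_prop, true_and, not_exists] at hcon
  have key := hc (fun n => if T n ω ∈ A then 1 else 0)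
  have hz : ∀ j : Fin K, ((if T (a j) ω ∈ A then (1 : ZMod 2) else 0) + (if T (b j) ω ∈ A then 1 else 0) +
      (if T (c j) ω ∈ A then 1 else 0)) = 0 := by
    intro j
    have hj := hcon j
    change ¬ (T (a j) ω ∈ A ↔ (T (b j) ω ∈ A ↔ T (c j) ω ∈ A)) at hj
    by_cases p : T (a j) ω ∈ A <;> by_cases q : T (b j) ω ∈ A <;> by_cases r : T (c j) ω ∈ A <;>
      simp [p, q, r] at hj ⊢ <;> decide
  have hω' : T m ω ∈ A := hω
  simp only [hz, hω', if_true, Finset.sum_const_zero] at key
  exact one_ne_zero key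

end Pool.Agent.F0f91f8.BH
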