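import Pool.Agent.Work.MP_0f91f8_co.BH.Stmts

/-!
# MP_0f91f8_co, block BH, item Sm: the arithmetic
-/

set_option autoImplicit false

noncomputable section

namespace Pool.Agent.F0f91f8.BH

open Filter Topology
open Pool.Agent.Work.MP_0f91f8_co.EF
open Pool.Agent.F0f91f8.RC

namespace XSm

/-- the three words of a triple -/
def wds {Ω : Type} (T : ℕ → Ω → Ω) (A : Set Ω) (a b c : ℕ) : Fin 3 → Set Ω :=
  ![Wd T A a b, Wd T A a c, Wd T A b c]

/-- the final computation -/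
theorem fin_arith (K d η s S Sw M X Y ε : ℝ) (hK : 0 < K) (hε : 0 < ε)
    (h0 : -(ε / 2) ≤ 18 * K * X + Y) (hX : X = (3 * d * (1 - 2 * d) - η + 4 * s) / 2)
    (hY : Y ≤ 9 / 4 * K - 3 / 2 * Sw + 9 * K * η) (hd : d ≤ Sw - 3 * K * d + 4 * M)
    (hM : M ≤ K * S) (hs : s ≤ S) (hS : 56 * (K * S) = (42 * K + 2) * d - 21 * K - ε) : False := by
  have h1 : K * s ≤ K * S := mul_le_mul_of_nonneg_left hs hK.le
  have h2 : 0 ≤ K * (2 * d - 1) ^ 2 := by positivity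
  rw [hX] at h0
  nlinarith

end XSm

theorem pr_Sm (h1 : StGn) (h2 : StTr) (h3 : StWr) (h4 : StCn) (h5 : StPa) : StSm := by
  intro K hC Ω μ T hS A ε hε
  obtain ⟨a, b, c, m, hm, hPT, hf⟩ := hC
  by_contra hcon
  push Not at hcon
  have hK : 0 < K := by
    rcases Nat.eq_zero_or_pos K with h | h
    · exfalso
      subst h
      have h6 := hf (fun _ => 1)
      simp at h6
    · exact h
  have hKr : (0 : ℝ) < (K : ℝ) := by exact_mod_cast hK
  obtain ⟨d, hd⟩ : ∃ d : ℝ, d = μ A := ⟨_, rfl⟩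
  obtain ⟨S, hSd⟩ : ∃ S : ℝ, S = ((42 * K + 2) * d - 21 * K - ε) / (56 * K) := ⟨_, rfl⟩
  have hS56 : 56 * ((K : ℝ) * S) = (42 * K + 2) * d - 21 * K - ε := by
    rw [hSd]
    field_simp
  have hMn : ∀ x y z : ℕ, PT x y z → μ (Mn T A x y z) ≤ S := by
    intro x y z hxyz
    have h6 := hcon x y z hxyz
    rw [← hd, ← hS56] at h6
    have h7 : 0 < 56 * (K : ℝ) := by positivity
    have h8 : 56 * (K : ℝ) * μ (Mn T A x y z) ≤ 56 * (K : ℝ) * S := by linarith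
    exact le_of_mul_le_mul_left h8 h7
  obtain ⟨x, y, z, hxyz, h0⟩ := h1 Ω μ T hS A (18 * K) (Fin K × Fin 3)
    (fun i => XSm.wds T A (a i.1) (b i.1) (c i.1) i.2) (ε / 2) (by linarith)
  have hxyz' := hxyz
  obtain ⟨hx, hy, hz, -⟩ := hxyz
  obtain ⟨η, hη⟩ : ∃ η : ℝ, η = μ (Od T A x y z) := ⟨_, rfl⟩
  -- the words
  obtain ⟨wj, hwj⟩ : ∃ wj : Fin K → ℝ, wj = fun j => μ (Wd T A (a j) (b j)) +
      μ (Wd T A (a j) (c j)) + μ (Wd T A (b j) (c j)) := ⟨_, rfl⟩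
  have hY : ∑ i : Fin K × Fin 3, Sp μ T (XSm.wds T A (a i.1) (b i.1) (c i.1) i.2) x y z ≤
      9 / 4 * (K : ℝ) - 3 / 2 * ∑ j, wj j + 9 * K * η := by
    rw [Fintype.sum_prod_type]
    have h6 : ∀ j : Fin K, ∑ i : Fin 3, Sp μ T (XSm.wds T A (a j) (b j) (c j) i) x y z ≤
        9 / 4 - 3 / 2 * wj j + 9 * η := by
      intro j
      obtain ⟨ha, hb, hc, -⟩ := hPT j
      have e1 := h3 Ω μ T hS A (a j) (b j) x y z ha hb hx hy hz
      have e2 := h3 Ω μ T hS A (a j) (c j) x y z ha hc hx hy hz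
      have e3 := h3 Ω μ T hS A (b j) (c j) x y z hb hc hx hy hz
      rw [Fin.sum_univ_three, hwj, hη]
      show Sp μ T (Wd T A (a j) (b j)) x y z + Sp μ T (Wd T A (a j) (c j)) x y z +
        Sp μ T (Wd T A (b j) (c j)) x y z ≤ _
      show _ ≤ 9 / 4 - 3 / 2 * (μ (Wd T A (a j) (b j)) + μ (Wd T A (a j) (c j)) +
        μ (Wd T A (b j) (c j))) + 9 * μ (Od T A x y z)
      linarith
    refine (Finset.sum_le_sum fun j _ => h6 j).trans (le_of_eq ?_)
    rw [Finset.sum_add_distrib, Finset.sum_sub_distrib, ← Finset.mul_sum, Finset.sum_const,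
      Finset.sum_const, Finset.card_univ, Fintype.card_fin, nsmul_eq_mul, nsmul_eq_mul]
    ring
  have hPa : d ≤ ∑ j, wj j - 3 * K * d + 4 * ∑ j, μ (Mn T A (a j) (b j) (c j)) := by
    have h6 := h5 Ω μ T hS A K a b c m hm hf
    rw [← hd] at h6
    refine h6.trans (le_of_eq ?_)
    have h7 : ∀ j : Fin K, μ (Od T A (a j) (b j) (c j)) =
        wj j - 3 * d + 4 * μ (Mn T A (a j) (b j) (c j)) := by
      intro j
      obtain ⟨ha, hb, hc, -⟩ := hPT j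
      rw [h4 Ω μ T hS A (a j) (b j) (c j) ha hb hc, hwj, hd]
    rw [Finset.sum_congr rfl fun j _ => h7 j, Finset.sum_add_distrib, Finset.sum_sub_distrib,
      Finset.sum_const, Finset.card_univ, Fintype.card_fin, nsmul_eq_mul, ← Finset.mul_sum]
    ring
  have hM : ∑ j, μ (Mn T A (a j) (b j) (c j)) ≤ K * S := by
    have h6 : ∑ j, μ (Mn T A (a j) (b j) (c j)) ≤ ∑ _j : Fin K, S :=
      Finset.sum_le_sum fun j _ => hMn _ _ _ (hPT j)
    rw [Finset.sum_const, Finset.card_univ, Fintype.card_fin, nsmul_eq_mul] at h6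
    exact h6
  have hX := h2 Ω μ T hS A x y z hx hy hz
  rw [← hd, ← hη] at hX
  have h0' : -(ε / 2) ≤ 18 * (K : ℝ) * Sp μ T A x y z +
      ∑ i : Fin K × Fin 3, Sp μ T (XSm.wds T A (a i.1) (b i.1) (c i.1) i.2) x y z := by
    have h6 : ((18 * K : ℕ) : ℝ) = 18 * (K : ℝ) := by push_cast; ring
    rw [← h6]
    exact h0
  exact XSm.fin_arith (K : ℝ) d η (μ (Mn T A x y z)) S (∑ j, wj j)
    (∑ j, μ (Mn T A (a j) (b j) (c j))) _ _ ε hKr hε h0' hX hY hPa hM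
    (hMn x y z hxyz') hS56

end Pool.Agent.F0f91f8.BH
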