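import Pool.Agent.Work.MP_0f91f8_co.BH.Stmts

/-!
# MP_0f91f8_co, block BH: item Tr
-/

set_option autoImplicit false

noncomputable section

namespace Pool.Agent.F0f91f8.BH

open Filter Topology
open Pool.Agent.Work.MP_0f91f8_co.EF
open Pool.Agent.F0f91f8.RC

namespace XTr

theorem split {Ω : Type} {μ : Set Ω → ℝ} (h : IsFA μ) (X Y : Set Ω) :
    μ X = μ (X ∩ Y) + μ (X \ Y) := by
  rw [← h.union (X ∩ Y) (X \ Y) (Set.disjoint_sdiff_right.mono_left Set.inter_subset_right),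
    Set.inter_union_diff]

/-- the sum of the pairs -/
theorem pairs {Ω : Type} {μ : Set Ω → ℝ} (h : IsFA μ) (P Q R : Set Ω) :
    2 * (μ (P ∩ Q) + μ (P ∩ R) + μ (Q ∩ R)) =
      μ P + μ Q + μ R - μ {ω | ω ∈ P ↔ (ω ∈ Q ↔ ω ∈ R)} + 4 * μ {ω | ω ∈ P ∧ ω ∈ Q ∧ ω ∈ R} := by
  have s1 := split h P Q
  have s2 := split h (P ∩ Q) R
  have s3 := split h (P \ Q) R
  have s4 := split h (P ∩ R) Q
  have s5 := split h Q P
  have s6 := split h (Q \ P) R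
  have s7 := split h (Q ∩ R) P
  have s8 := split h R P
  have s9 := split h (R \ P) Q
  have s10 := split h {ω | ω ∈ P ↔ (ω ∈ Q ↔ ω ∈ R)} P
  have s11 := split h ({ω | ω ∈ P ↔ (ω ∈ Q ↔ ω ∈ R)} ∩ P) Q
  have s12 := split h ({ω | ω ∈ P ↔ (ω ∈ Q ↔ ω ∈ R)} \ P) Q
  have e1 : (P ∩ R) ∩ Q = (P ∩ Q) ∩ R := by ext ω; simp only [Set.mem_inter_iff]; tauto
  have e2 : (Q ∩ R) ∩ P = (P ∩ Q) ∩ R := by ext ω; simp only [Set.mem_inter_iff]; tauto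
  have e3 : {ω | ω ∈ P ∧ ω ∈ Q ∧ ω ∈ R} = (P ∩ Q) ∩ R := by
    ext ω; simp only [Set.mem_inter_iff, Set.mem_ofPred_eq]; tauto
  have e4 : (P \ Q) ∩ R = (P ∩ R) \ Q := by
    ext ω; simp only [Set.mem_inter_iff, Set.mem_sdiff]; tauto
  have e5 : Q ∩ P = P ∩ Q := Set.inter_comm _ _
  have e6 : (Q \ P) ∩ R = (Q ∩ R) \ P := by
    ext ω; simp only [Set.mem_inter_iff, Set.mem_sdiff]; tauto
  have e7 : R ∩ P = P ∩ R := Set.inter_comm _ _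
  have e8 : (R \ P) ∩ Q = (Q ∩ R) \ P := by
    ext ω; simp only [Set.mem_inter_iff, Set.mem_sdiff]; tauto
  have e9 : ({ω | ω ∈ P ↔ (ω ∈ Q ↔ ω ∈ R)} ∩ P) ∩ Q = (P ∩ Q) ∩ R := by
    ext ω; simp only [Set.mem_inter_iff, Set.mem_ofPred_eq]; tauto
  have e10 : ({ω | ω ∈ P ↔ (ω ∈ Q ↔ ω ∈ R)} ∩ P) \ Q = (P \ Q) \ R := by
    ext ω; simp only [Set.mem_inter_iff, Set.mem_sdiff, Set.mem_ofPred_eq]; tauto
  have e11 : ({ω | ω ∈ P ↔ (ω ∈ Q ↔ ω ∈ R)} \ P) ∩ Q = (Q \ P) \ R := by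
    ext ω; simp only [Set.mem_inter_iff, Set.mem_sdiff, Set.mem_ofPred_eq]; tauto
  have e12 : ({ω | ω ∈ P ↔ (ω ∈ Q ↔ ω ∈ R)} \ P) \ Q = (R \ P) \ Q := by
    ext ω; simp only [Set.mem_sdiff, Set.mem_ofPred_eq]; tauto
  rw [e1] at s4
  rw [e2] at s7
  rw [e4] at s3
  rw [e5] at s5
  rw [e6] at s6
  rw [e7] at s8
  rw [e8] at s9
  rw [e9, e10] at s11
  rw [e11, e12] at s12
  rw [e3]
  linarith

end XTr

/-- Item Tr. -/
theorem pr_Tr : StTr := by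
  intro Ω μ T hS A x y z hx hy hz
  have h := XTr.pairs hS.fa (Pb T A x) (Pb T A y) (Pb T A z)
  have hx' : μ (Pb T A x) = μ A := hS.inv x hx A
  have hy' : μ (Pb T A y) = μ A := hS.inv y hy A
  have hz' : μ (Pb T A z) = μ A := hS.inv z hz A
  rw [hx', hy', hz'] at h
  change 2 * _ = μ A + μ A + μ A - μ (Od T A x y z) + 4 * μ (Mn T A x y z) at h
  rw [Sp]
  linear_combination h / 2

end Pool.Agent.F0f91f8.BH
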