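import Pool.Agent.Work.MP_0f91f8_co.BH.Stmts

/-! Item Wr of block BH -/

set_option autoImplicit false

namespace Pool.Agent.F0f91f8.BH

open Pool.Agent.Work.MP_0f91f8_co.EF

namespace XWr

lemma mono {Ω : Type} {μ : Set Ω → ℝ} (h : IsFA μ) {A B : Set Ω} (hAB : A ⊆ B) : μ A ≤ μ B := by
  have h1 := h.union A (B \ A) Set.disjoint_sdiff_right
  rw [Set.union_sdiff_cancel hAB] at h1
  have := h.nonneg (B \ A)
  linarith

lemma subadd {Ω : Type} {μ : Set Ω → ℝ} (h : IsFA μ) (A B : Set Ω) : μ (A ∪ B) ≤ μ A + μ B := by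
  have h1 := h.union A (B \ A) Set.disjoint_sdiff_right
  rw [Set.union_sdiff_self] at h1
  have h2 := mono h (Set.sdiff_subset : B \ A ⊆ B)
  linarith

lemma parity (a1 a2 a3 b1 b2 b3 : Prop) (h : (¬ (a1 ↔ b1)) ↔ ((¬ (a2 ↔ b2)) ↔ (¬ (a3 ↔ b3)))) :
    (a1 ↔ (a2 ↔ a3)) ∨ (b1 ↔ (b2 ↔ b3)) := by
  by_cases h1 : a1 <;> by_cases h2 : a2 <;> by_cases h3 : a3 <;> by_cases k1 : b1 <;>
    by_cases k2 : b2 <;> by_cases k3 : b3 <;> simp_all

end XWr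

theorem pr_Wr (h : StTr) : StWr := by
  intro Ω μ T hS A a b x y z ha hb hx hy hz
  have hfa := hS.fa
  set B : Set Ω := Wd T A a b with hB
  have h1 := h Ω μ T hS B x y z hx hy hz
  have hMO : μ (Mn T B x y z) ≤ μ (Od T B x y z) := by
    apply XWr.mono hfa
    rintro ω ⟨h1, h2, h3⟩
    show (T x ω ∈ B ↔ (T y ω ∈ B ↔ T z ω ∈ B))
    simp [h1, h2, h3]
  have hcomm : ∀ (c d : ℕ) (ω : Ω), T c (T d ω) = T d (T c ω) := by
    intro c d ω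
    rw [← hS.mul, ← hS.mul, Nat.mul_comm]
  have hsub : Od T B x y z ⊆ {ω | T a ω ∈ Od T A x y z} ∪ {ω | T b ω ∈ Od T A x y z} := by
    intro ω hω
    have hω' : (T x ω ∈ B ↔ (T y ω ∈ B ↔ T z ω ∈ B)) := hω
    have e : ∀ c, (T c ω ∈ B) = ¬ (T c (T a ω) ∈ A ↔ T c (T b ω) ∈ A) := by
      intro c
      show (¬ (T a (T c ω) ∈ A ↔ T b (T c ω) ∈ A)) = _
      rw [hcomm a c ω, hcomm b c ω]
    rw [e x, e y, e z] at hω'
    exact XWr.parity _ _ _ _ _ _ hω'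
  have hOd : μ (Od T B x y z) ≤ 2 * μ (Od T A x y z) := by
    have e1 := XWr.mono hfa hsub
    have e2 := XWr.subadd hfa {ω | T a ω ∈ Od T A x y z} {ω | T b ω ∈ Od T A x y z}
    rw [hS.inv a ha, hS.inv b hb] at e2
    linarith
  rw [h1]
  nlinarith [sq_nonneg (1 - 2 * μ B)]

end Pool.Agent.F0f91f8.BH
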