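import Pool.Agent.Work.MP_0f91f8_co.EF.Final

/-!
# Below half: the process form

A finitely additive probability `μ` on `Ω`, a multiplicative action `τ` of the positive integers which
preserves `μ`, a set `A` of measure `d`, `E n = τ n ⁻¹' A`. If every Pythagorean triple `x, y, z` has
`μ (E x ∩ E y ∩ E z) ≤ c` then `d ≤ 15 (3/2 - 3 d + 18 d (1 - 2 d) + 28 c)`; in particular
`d < 0.4985` if `c ≤ 1/20000`.

Steps (helper75): (1) for a member `x, y, z` of the families almost always an even number of `x n, y n,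
z n` is in `A`; (2) so every pair word `X (a n) X (b n)`, `X = 1 - 2 1_A`, has almost nonnegative mean;
(3) for EVERY Pythagorean triple `a, b, c` the sum of the three pair words is `3` if none of `a n, b n,
c n` is in `A` and `-1` otherwise, so almost always an even number of them is in `A`; (4) fifteen
triples in which every number but `1560` occurs exactly twice.
-/

set_option autoImplicit false

noncomputable section

namespace Pool.Agent.F0f91f8.BH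

open Filter Topology
open Pool.Agent.Work.MP_0f91f8_co.EF

open scoped Classical

/-- indicator -/
def id1 {Ω : Type} (S : Set Ω) (ω : Ω) : ℝ := if ω ∈ S then 1 else 0

variable {Ω : Type} {μ : Set Ω → ℝ}

/-- a pointwise inequality between sums of indicators gives an inequality of measures -/
theorem lin (h : IsFA μ) {ι : Type} (s : Finset ι) (S : ι → Set Ω) (c : ι → ℝ) (C : ℝ)
    (hpt : ∀ ω, ∑ i ∈ s, c i * id1 (S i) ω ≤ C) : ∑ i ∈ s, c i * μ (S i) ≤ C := by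
  set f : Ω → Finset ι := fun ω => s.filter fun i => ω ∈ S i with hf
  have hmem : ∀ ω, f ω ∈ s.powerset := fun ω => Finset.mem_powerset.2 (Finset.filter_subset _ _)
  have hpart : ∀ B : Set Ω, μ B = ∑ x ∈ s.powerset, μ (B ∩ {ω | f ω = x}) := by
    intro B
    rw [← XPrP.part h f B s.powerset]
    congr 1
    ext ω
    simp only [Set.mem_inter_iff, Set.mem_ofPred_eq]
    exact ⟨fun hB => ⟨hB, hmem ω⟩, fun hB => hB.1⟩
  have h1 : ∀ i ∈ s, μ (S i) = ∑ x ∈ s.powerset, (if i ∈ x then 1 else 0) * μ {ω | f ω = x} := by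
    intro i hi
    rw [hpart (S i)]
    refine Finset.sum_congr rfl fun x _ => ?_
    split_ifs with hix
    · rw [one_mul]
      congr 1
      ext ω
      simp only [Set.mem_inter_iff, Set.mem_ofPred_eq]
      constructor
      · exact fun h => h.2
      · intro hx
        refine ⟨?_, hx⟩
        have : i ∈ f ω := by rw [hx]; exact hix
        exact (Finset.mem_filter.1 this).2
    · rw [zero_mul]
      have : S i ∩ {ω | f ω = x} = ∅ := by
        ext ω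
        simp only [Set.mem_inter_iff, Set.mem_ofPred_eq, Set.mem_empty_iff_false, iff_false]
        rintro ⟨h3, h4⟩
        apply hix
        rw [← h4]
        exact Finset.mem_filter.2 ⟨hi, h3⟩
      rw [this, XPrP.empty h]
  have h2 : ∑ i ∈ s, c i * μ (S i) =
      ∑ x ∈ s.powerset, μ {ω | f ω = x} * ∑ i ∈ s, c i * (if i ∈ x then 1 else 0) := by
    rw [Finset.sum_congr rfl fun i hi => by rw [h1 i hi, Finset.mul_sum], Finset.sum_comm]
    refine Finset.sum_congr rfl fun x _ => ?_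
    rw [Finset.mul_sum]
    refine Finset.sum_congr rfl fun i _ => ?_
    ring
  have h3 : ∑ x ∈ s.powerset, μ {ω | f ω = x} = 1 := by
    have := hpart Set.univ
    rw [h.univ] at this
    rw [this]
    refine Finset.sum_congr rfl fun x _ => ?_
    rw [Set.univ_inter]
  rw [h2]
  calc ∑ x ∈ s.powerset, μ {ω | f ω = x} * ∑ i ∈ s, c i * (if i ∈ x then 1 else 0)
      ≤ ∑ x ∈ s.powerset, μ {ω | f ω = x} * C := by
        refine Finset.sum_le_sum fun x _ => ?_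
        by_cases hx : ∃ ω, f ω = x
        · obtain ⟨ω, hω⟩ := hx
          refine mul_le_mul_of_nonneg_left ?_ (h.nonneg _)
          refine le_trans (le_of_eq ?_) (hpt ω)
          refine Finset.sum_congr rfl fun i hi => ?_
          congr 1
          unfold id1
          have : i ∈ x ↔ ω ∈ S i := by
            rw [← hω]
            simp [hf, hi]
          by_cases h5 : ω ∈ S i
          · rw [if_pos h5, if_pos (this.2 h5)]
          · rw [if_neg h5, if_neg fun h6 => h5 (this.1 h6)]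
        · have : {ω | f ω = x} = ∅ := by
            ext ω
            simp only [Set.mem_ofPred_eq, Set.mem_empty_iff_false, iff_false]
            exact fun h6 => hx ⟨ω, h6⟩
          rw [this, XPrP.empty h, zero_mul, zero_mul]
    _ = C := by rw [← Finset.sum_mul, h3, one_mul]

/-- an odd number of the three events -/
def odd3 (X Y Z : Set Ω) : Set Ω := {ω | Xor (Xor (ω ∈ X) (ω ∈ Y)) (ω ∈ Z)}

/-- exactly one of the two events -/
def dif (X Y : Set Ω) : Set Ω := {ω | Xor (ω ∈ X) (ω ∈ Y)}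

/-- pairs in `A` -/
theorem pairsA (h : IsFA μ) (X Y Z : Set Ω) :
    2 * (μ (X ∩ Y) + μ (X ∩ Z) + μ (Y ∩ Z)) + μ (odd3 X Y Z) ≤
      μ X + μ Y + μ Z + 4 * μ (X ∩ Y ∩ Z) := by
  have h1 := lin h (Finset.univ : Finset (Fin 8))
    ![X ∩ Y, X ∩ Z, Y ∩ Z, odd3 X Y Z, X, Y, Z, X ∩ Y ∩ Z] ![2, 2, 2, 1, -1, -1, -1, -4] 0 (by
      intro ω
      simp only [Fin.sum_univ_succ, id1, odd3, Xor]
      by_cases hX : ω ∈ X <;> by_cases hY : ω ∈ Y <;> by_cases hZ : ω ∈ Z <;>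
        simp [hX, hY, hZ, Fin.succ] <;> norm_num)
  simp [Fin.sum_univ_succ, Fin.succ] at h1
  linarith

/-- equal pairs of a word -/
theorem pairsV (h : IsFA μ) (X Y Z : Set Ω) :
    (μ (X ∩ Y) + μ (X ∩ Z) + μ (Y ∩ Z)) + (μ (Xᶜ ∩ Yᶜ) + μ (Xᶜ ∩ Zᶜ) + μ (Yᶜ ∩ Zᶜ)) ≤
      3 - (μ X + μ Y + μ Z) + 3 * μ (odd3 X Y Z) := by
  have h1 := lin h (Finset.univ : Finset (Fin 10))
    ![X ∩ Y, X ∩ Z, Y ∩ Z, Xᶜ ∩ Yᶜ, Xᶜ ∩ Zᶜ, Yᶜ ∩ Zᶜ, X, Y, Z, odd3 X Y Z]
    ![1, 1, 1, 1, 1, 1, 1, 1, 1, -3] 3 (by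
      intro ω
      simp only [Fin.sum_univ_succ, id1, odd3, Xor]
      by_cases hX : ω ∈ X <;> by_cases hY : ω ∈ Y <;> by_cases hZ : ω ∈ Z <;>
        simp [hX, hY, hZ, Fin.succ] <;> norm_num)
  simp [Fin.sum_univ_succ, Fin.succ] at h1
  linarith

/-- a word of two letters is odd only if one of the letters is -/
theorem oddV (h : IsFA μ) (X Y Z X' Y' Z' : Set Ω) :
    μ (odd3 (dif X X') (dif Y Y') (dif Z Z')) ≤ μ (odd3 X Y Z) + μ (odd3 X' Y' Z') := by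
  have h1 := lin h (Finset.univ : Finset (Fin 3))
    ![odd3 (dif X X') (dif Y Y') (dif Z Z'), odd3 X Y Z, odd3 X' Y' Z']
    ![1, -1, -1] 0 (by
      intro ω
      simp only [Fin.sum_univ_succ, id1, odd3, dif, Xor]
      by_cases hX : ω ∈ X <;> by_cases hY : ω ∈ Y <;> by_cases hZ : ω ∈ Z <;>
        by_cases hX' : ω ∈ X' <;> by_cases hY' : ω ∈ Y' <;> by_cases hZ' : ω ∈ Z' <;>
        simp [hX, hY, hZ, hX', hY', hZ', Fin.succ])
  simp [Fin.sum_univ_succ, Fin.succ] at h1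
  linarith

/-- the pair words of a triple -/
theorem const3 (h : IsFA μ) (X Y Z : Set Ω) :
    μ (odd3 X Y Z) ≤ μ (dif X Y) + μ (dif X Z) + μ (dif Y Z) + 4 * μ (X ∩ Y ∩ Z) -
      (μ X + μ Y + μ Z) := by
  have h1 := lin h (Finset.univ : Finset (Fin 8))
    ![odd3 X Y Z, dif X Y, dif X Z, dif Y Z, X ∩ Y ∩ Z, X, Y, Z]
    ![1, -1, -1, -1, -4, 1, 1, 1] 0 (by
      intro ω
      simp only [Fin.sum_univ_succ, id1, odd3, dif, Xor]
      by_cases hX : ω ∈ X <;> by_cases hY : ω ∈ Y <;> by_cases hZ : ω ∈ Z <;>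
        simp [hX, hY, hZ, Fin.succ] <;> norm_num)
  simp [Fin.sum_univ_succ, Fin.succ] at h1
  linarith

/-- complements -/
theorem compl (h : IsFA μ) (V : Set Ω) : μ Vᶜ = 1 - μ V := by
  have h1 := h.union V Vᶜ disjoint_compl_right
  rw [Set.union_compl_self, h.univ] at h1
  linarith

/-- finite subadditivity -/
theorem cover (h : IsFA μ) {n : ℕ} (S : Set Ω) (T : Fin n → Set Ω) (hS : ∀ ω ∈ S, ∃ i, ω ∈ T i) :
    μ S ≤ ∑ i, μ (T i) := by
  have h1 := lin h (Finset.univ : Finset (Fin (n + 1))) (Fin.cons S T)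
    (Fin.cons 1 fun _ => -1) 0 (by
      intro ω
      rw [Fin.sum_univ_succ]
      simp only [Fin.cons_zero, Fin.cons_succ, one_mul, neg_mul, Finset.sum_neg_distrib]
      have h0 : ∀ i, 0 ≤ id1 (T i) ω := by
        intro i
        unfold id1
        split_ifs <;> norm_num
      by_cases hω : ω ∈ S
      · obtain ⟨i, hi⟩ := hS ω hω
        have h2 : id1 (T i) ω ≤ ∑ j, id1 (T j) ω :=
          Finset.single_le_sum (f := fun j => id1 (T j) ω) (fun j _ => h0 j) (Finset.mem_univ i)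
        have h3 : id1 (T i) ω = 1 := if_pos hi
        have h4 : id1 S ω = 1 := if_pos hω
        linarith
      · have h4 : id1 S ω = 0 := if_neg hω
        have h5 : 0 ≤ ∑ j, id1 (T j) ω := Finset.sum_nonneg fun j _ => h0 j
        linarith)
  rw [Fin.sum_univ_succ] at h1
  simp only [Fin.cons_zero, Fin.cons_succ, one_mul, neg_mul, Finset.sum_neg_distrib] at h1
  linarith

/-- an action of the multiplicative semigroup of the positive integers preserving `μ` -/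
structure Act (μ : Set Ω → ℝ) (τ : ℕ → Ω → Ω) : Prop where
  fa : IsFA μ
  mul : ∀ a b ω, τ (a * b) ω = τ a (τ b ω)
  inv : ∀ k, 0 < k → ∀ S : Set Ω, μ (τ k ⁻¹' S) = μ S

variable {τ : ℕ → Ω → Ω}

theorem Act.pre (h : Act μ τ) (a b : ℕ) (V : Set Ω) : τ (a * b) ⁻¹' V = τ a ⁻¹' (τ b ⁻¹' V) := by
  ext ω
  rw [Set.mem_preimage, Set.mem_preimage, Set.mem_preimage, mul_comm a b, h.mul]

theorem Act.isPF (h : Act μ τ) (V : Set Ω) :
    IsPF (fun a b => μ (τ a ⁻¹' V ∩ τ b ⁻¹' V)) (μ V) := by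
  refine PrP_pf Ω μ h.fa (fun n => τ n ⁻¹' V) (μ V) (fun n hn => h.inv n hn V) ?_
  intro k a b hk _ _
  rw [h.pre k a V, h.pre k b V, ← Set.preimage_inter, h.inv k hk]

/-- the mean of a word -/
theorem word (hG : GenF) (h : Act μ τ) (A : Set Ω) (c : ℝ)
    (hc : ∀ x y z : ℕ, 0 < x → 0 < y → 0 < z → x ^ 2 + y ^ 2 = z ^ 2 →
      μ (τ x ⁻¹' A ∩ τ y ⁻¹' A ∩ τ z ⁻¹' A) ≤ c) (a b : ℕ) (ha : 0 < a) (hb : 0 < b) :
    3 / 2 * (2 * μ (dif (τ a ⁻¹' A) (τ b ⁻¹' A)) - 1) ≤ 18 * μ A * (1 - 2 * μ A) + 24 * c := by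
  obtain ⟨V, hV⟩ : ∃ V, V = dif (τ a ⁻¹' A) (τ b ⁻¹' A) := ⟨_, rfl⟩
  rw [← hV]
  have key : ∀ ε : ℝ, 0 < ε → 3 * (12 * μ A ^ 2 + μ V ^ 2 + (1 - μ V) ^ 2) - ε ≤
      18 * μ A + 24 * c + 3 - 3 * μ V := by
    intro ε hε
    obtain ⟨W, hW⟩ : ∃ W : Fin 14 → Set Ω, W = ![A, A, A, A, A, A, A, A, A, A, A, A, V, Vᶜ] :=
      ⟨_, rfl⟩
    obtain ⟨x, y, z, hx, hy, hz, hxyz, hle⟩ := hG 14
      (fun i a b => μ (τ a ⁻¹' W i ∩ τ b ⁻¹' W i)) (fun i => μ (W i)) (fun i => h.isPF (W i)) ε hε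
    simp only [hW, Fin.sum_univ_succ, Fin.sum_univ_zero, Matrix.cons_val_zero,
      Matrix.cons_val_succ, Matrix.cons_val_fin_one, add_zero] at hle
    have h1 := pairsA h.fa (τ x ⁻¹' A) (τ y ⁻¹' A) (τ z ⁻¹' A)
    have h2 := hc x y z hx hy hz hxyz
    have h3 := pairsV h.fa (τ x ⁻¹' V) (τ y ⁻¹' V) (τ z ⁻¹' V)
    have h4 : ∀ n, τ n ⁻¹' V = dif (τ a ⁻¹' (τ n ⁻¹' A)) (τ b ⁻¹' (τ n ⁻¹' A)) := by
      intro n
      rw [hV, ← h.pre a n A, ← h.pre b n A, mul_comm a n, mul_comm b n, h.pre n a A, h.pre n b A]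
      rfl
    have h5 := oddV h.fa (τ a ⁻¹' (τ x ⁻¹' A)) (τ a ⁻¹' (τ y ⁻¹' A)) (τ a ⁻¹' (τ z ⁻¹' A))
      (τ b ⁻¹' (τ x ⁻¹' A)) (τ b ⁻¹' (τ y ⁻¹' A)) (τ b ⁻¹' (τ z ⁻¹' A))
    rw [← h4 x, ← h4 y, ← h4 z] at h5
    have h6 : ∀ k, 0 < k → μ (odd3 (τ k ⁻¹' (τ x ⁻¹' A)) (τ k ⁻¹' (τ y ⁻¹' A))
        (τ k ⁻¹' (τ z ⁻¹' A))) = μ (odd3 (τ x ⁻¹' A) (τ y ⁻¹' A) (τ z ⁻¹' A)) := by
      intro k hk
      rw [← h.inv k hk (odd3 (τ x ⁻¹' A) (τ y ⁻¹' A) (τ z ⁻¹' A))]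
      rfl
    rw [h6 a ha, h6 b hb] at h5
    rw [h.inv x hx, h.inv y hy, h.inv z hz] at h1
    rw [h.inv x hx, h.inv y hy, h.inv z hz] at h3
    rw [compl h.fa V] at hle
    simp only [Set.preimage_compl] at hle h3
    linarith
  have h7 : 3 * (12 * μ A ^ 2 + μ V ^ 2 + (1 - μ V) ^ 2) ≤
      18 * μ A + 24 * c + 3 - 3 * μ V := by
    refine le_of_forall_pos_le_add fun ε hε => ?_
    have := key ε hε
    linarith
  nlinarith [sq_nonneg (2 * μ V - 1)]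

/-- every Pythagorean triple is almost always even -/
theorem triple (hG : GenF) (h : Act μ τ) (A : Set Ω) (c : ℝ)
    (hc : ∀ x y z : ℕ, 0 < x → 0 < y → 0 < z → x ^ 2 + y ^ 2 = z ^ 2 →
      μ (τ x ⁻¹' A ∩ τ y ⁻¹' A ∩ τ z ⁻¹' A) ≤ c) (x y z : ℕ) (hx : 0 < x) (hy : 0 < y)
    (hz : 0 < z) (hxyz : x ^ 2 + y ^ 2 = z ^ 2) :
    μ (odd3 (τ x ⁻¹' A) (τ y ⁻¹' A) (τ z ⁻¹' A)) ≤
      3 / 2 - 3 * μ A + 18 * μ A * (1 - 2 * μ A) + 28 * c := by
  have h1 := const3 h.fa (τ x ⁻¹' A) (τ y ⁻¹' A) (τ z ⁻¹' A)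
  have h2 := word hG h A c hc x y hx hy
  have h3 := word hG h A c hc x z hx hz
  have h4 := word hG h A c hc y z hy hz
  have h5 := hc x y z hx hy hz hxyz
  rw [h.inv x hx, h.inv y hy, h.inv z hz] at h1
  linarith

/-- fifteen triples in which every number but `1560` occurs exactly twice -/
def tt : Fin 15 → ℕ × ℕ × ℕ := ![(99, 132, 165), (132, 176, 220), (165, 220, 275),
  (468, 624, 780), (624, 832, 1040), (780, 1040, 1300), (900, 1200, 1500), (500, 1200, 1300),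
  (680, 1632, 1768), (832, 1560, 1768), (275, 1500, 1525), (900, 1365, 1635), (176, 468, 500),
  (680, 1365, 1525), (99, 1632, 1635)]

theorem tt_pos : ∀ i, 0 < (tt i).1 ∧ 0 < (tt i).2.1 ∧ 0 < (tt i).2.2 ∧
    (tt i).1 ^ 2 + (tt i).2.1 ^ 2 = (tt i).2.2 ^ 2 := by
  decide

theorem cert (e : ℕ → ZMod 2) (he : ∀ i, e (tt i).1 + e (tt i).2.1 + e (tt i).2.2 = 0) :
    e 1560 = 0 := by
  have h2 : (2 : ZMod 2) = 0 := rfl
  have q0 : e 99 + e 132 + e 165 = 0 := he 0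
  have q1 : e 132 + e 176 + e 220 = 0 := he 1
  have q2 : e 165 + e 220 + e 275 = 0 := he 2
  have q3 : e 468 + e 624 + e 780 = 0 := he 3
  have q4 : e 624 + e 832 + e 1040 = 0 := he 4
  have q5 : e 780 + e 1040 + e 1300 = 0 := he 5
  have q6 : e 900 + e 1200 + e 1500 = 0 := he 6
  have q7 : e 500 + e 1200 + e 1300 = 0 := he 7
  have q8 : e 680 + e 1632 + e 1768 = 0 := he 8
  have q9 : e 832 + e 1560 + e 1768 = 0 := he 9
  have q10 : e 275 + e 1500 + e 1525 = 0 := he 10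
  have q11 : e 900 + e 1365 + e 1635 = 0 := he 11
  have q12 : e 176 + e 468 + e 500 = 0 := he 12
  have q13 : e 680 + e 1365 + e 1525 = 0 := he 13
  have q14 : e 99 + e 1632 + e 1635 = 0 := he 14
  linear_combination q0 + q1 + q2 + q3 + q4 + q5 + q6 + q7 + q8 + q9 + q10 + q11 + q12 + q13 +
    q14 - (e 99 + e 132 + e 165 + e 176 + e 220 + e 275 + e 468 + e 624 + e 780 + e 832 + e 1040 +
      e 1300 + e 900 + e 1200 + e 1500 + e 500 + e 680 + e 1632 + e 1768 + e 1525 + e 1365 +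
      e 1635) * h2

/-- the process form -/
theorem proc (hG : GenF) (h : Act μ τ) (A : Set Ω) (c : ℝ)
    (hc : ∀ x y z : ℕ, 0 < x → 0 < y → 0 < z → x ^ 2 + y ^ 2 = z ^ 2 →
      μ (τ x ⁻¹' A ∩ τ y ⁻¹' A ∩ τ z ⁻¹' A) ≤ c) :
    μ A ≤ 15 * (3 / 2 - 3 * μ A + 18 * μ A * (1 - 2 * μ A) + 28 * c) := by
  have h1 : μ (τ 1560 ⁻¹' A) ≤ ∑ i, μ (odd3 (τ (tt i).1 ⁻¹' A) (τ (tt i).2.1 ⁻¹' A)
      (τ (tt i).2.2 ⁻¹' A)) := by
    refine cover h.fa _ _ fun ω hω => ?_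
    by_contra hno
    push Not at hno
    have h2 := cert (fun n => if τ n ω ∈ A then 1 else 0) (by
      intro i
      have h3 := hno i
      simp only [odd3, Xor, Set.mem_ofPred_eq, Set.mem_preimage] at h3
      by_cases hX : τ (tt i).1 ω ∈ A <;> by_cases hY : τ (tt i).2.1 ω ∈ A <;>
        by_cases hZ : τ (tt i).2.2 ω ∈ A <;> simp [hX, hY, hZ] at h3 ⊢ <;> decide)
    have hω' : τ 1560 ω ∈ A := hω
    simp [hω'] at h2
  rw [h.inv 1560 (by norm_num)] at h1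
  have h4 : ∑ i, μ (odd3 (τ (tt i).1 ⁻¹' A) (τ (tt i).2.1 ⁻¹' A) (τ (tt i).2.2 ⁻¹' A)) ≤
      ∑ _i : Fin 15, (3 / 2 - 3 * μ A + 18 * μ A * (1 - 2 * μ A) + 28 * c) :=
    Finset.sum_le_sum fun i _ => by
      obtain ⟨a1, a2, a3, a4⟩ := tt_pos i
      exact triple hG h A c hc _ _ _ a1 a2 a3 a4
  rw [Finset.sum_const, Finset.card_univ, Fintype.card_fin, nsmul_eq_mul] at h4
  push_cast at h4
  linarith

/-- density at least `0.4985` -/
theorem proc_lt (hG : GenF) (h : Act μ τ) (A : Set Ω)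
    (hc : ∀ x y z : ℕ, 0 < x → 0 < y → 0 < z → x ^ 2 + y ^ 2 = z ^ 2 →
      μ (τ x ⁻¹' A ∩ τ y ⁻¹' A ∩ τ z ⁻¹' A) ≤ 1 / 20000) : μ A < 0.4985 := by
  by_contra hcon
  push Not at hcon
  have h1 := proc hG h A _ hc
  norm_num at hcon h1
  nlinarith

end Pool.Agent.F0f91f8.BH
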