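import Pool.Agent.Work.MP_0f91f8_co.BH.Defs

/-!
# MP_0f91f8_co, block BH (BelowHalf): the items

An item `NAME` is a theorem `pr_NAME : StNAME` (hypotheses: the statements named in the docstring, in that order) in the file
`BH/I_NAME.lean`, namespace `Pool.Agent.F0f91f8.BH`, auxiliary lemmas in the namespace `Pool.Agent.F0f91f8.BH.XNAME`; import this
file.  Nobody waits for another item.  `Pb T A n = {ω | T n ω ∈ A}`; `T a (T x ω) = T (a * x) ω` (`Sy.mul`), and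
`T (a * x) ω = T x (T a ω)` because `a * x = x * a`.  By `Sy.inv`, `μ {ω | T k ω ∈ S} = μ S` for EVERY set `S` (by `rfl` also
for sets like `{ω | T a (T k ω) ∈ A ∧ …}`).  For a finite union or a pointwise identity of indicators use finite additivity
(`IsFA.union`, `IsFA.nonneg`, monotonicity: `EF.XCou.fa_mono`); to prove a linear identity between measures of Boolean
combinations of three sets `P, Q, R` split `univ` into the eight atoms (`μ P = μ (P ∩ Q) + μ (P \ Q)` etc.).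
-/

set_option autoImplicit false

noncomputable section

namespace Pool.Agent.F0f91f8.BH

open Filter Topology
open Pool.Agent.Work.MP_0f91f8_co.EF
open Pool.Agent.F0f91f8.RC

/-- **Pk** (EASY-MEDIUM).  The centred kernel of a set.  Use `RC.StPrK` (theorem of `RC/I_PrK.lean`, import it) with `X n = Pb T B n`,
`C n = univ`, `d = μ B`, `β = 1`: `X n ⊆ univ`, `μ (X n) = μ B` (`Sy.inv`), `μ univ = 1`, and
`Pb T B (k a) ∩ Pb T B (k b) = {ω | T k ω ∈ Pb T B a ∩ Pb T B b}` (`T (k a) ω = T (a k) ω = T a (T k ω)`), so its measure is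
`μ (Pb T B a ∩ Pb T B b)`; for `C = univ` the intersections are `X (k a)`, `univ`.  Value: `ker = 1 * μ (X a ∩ X b) -
1 * μ B * (μ (X a) + μ (X b)) + (μ B)^2 = μ (X a ∩ X b) - (μ B)^2`. -/
def StPk : Prop := ∀ (Ω : Type) (μ : Set Ω → ℝ) (T : ℕ → Ω → Ω), Sy μ T → ∀ B : Set Ω,
  IsPK (ker μ (Pb T B) (fun _ => Set.univ) (μ B) 1) ∧
  ∀ a b, 0 < a → 0 < b → ker μ (Pb T B) (fun _ => Set.univ) (μ B) 1 a b = μ (Pb T B a ∩ Pb T B b) - μ B ^ 2

/-- **Gn** (EASY-MEDIUM).  USES `KT.GenTL`, `StPk` (write `pr_Gn (h1 : KT.GenTL) (h2 : StPk) : StGn`).  Apply `GenTL` with `q = E = 1`,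
`N = 0` (the functions `χ : Fin 0 → _` are trivial) and the `W + card ι` kernels: `W` times the kernel of `A` and the kernels of the
`B i` (index type `Fin (W + card ι)`, `Fin.append` or `Fin.addCases`; `Fintype.equivFin ι`).  The sum of the values of the kernel of `B`
at the three pairs is `Sp μ T B x y z` by the second part of `StPk`. -/
def StGn : Prop := ∀ (Ω : Type) (μ : Set Ω → ℝ) (T : ℕ → Ω → Ω), Sy μ T → ∀ (A : Set Ω) (W : ℕ) (ι : Type) [Fintype ι]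
  (B : ι → Set Ω) (ε : ℝ), 0 < ε →
  ∃ x y z : ℕ, PT x y z ∧ -ε ≤ W * Sp μ T A x y z + ∑ i, Sp μ T (B i) x y z

/-- **Tr** (EASY).  Pointwise, with `N ∈ {0,1,2,3}` the number of `x, y, z` with `T · ω ∈ A`: the number of pairs is
`C(N,2) = (N - [N odd] + 4 [N = 3])/2` (`0, 0, 1, 3`).  `μ (Pb T A x) = μ A` (`Sy.inv`); so the sum of the three pair returns is
`(3 μ A - μ Od + 4 μ Mn)/2`.  Subtract `3 (μ A)^2`. -/
def StTr : Prop := ∀ (Ω : Type) (μ : Set Ω → ℝ) (T : ℕ → Ω → Ω), Sy μ T → ∀ (A : Set Ω) (x y z : ℕ), 0 < x → 0 < y → 0 < z →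
  Sp μ T A x y z = (3 * μ A * (1 - 2 * μ A) - μ (Od T A x y z) + 4 * μ (Mn T A x y z)) / 2

/-- **Wr** (EASY-MEDIUM).  USES `StTr` (write `pr_Wr (h : StTr) : StWr`).  Let `B = Wd T A a b`.  `StTr` for `B`:
`Sp B = (3 μ B (1 - 2 μ B) - μ (Od T B x y z) + 4 μ (Mn T B x y z))/2`, and `Mn T B x y z ⊆ Od T B x y z`, so
`Sp B ≤ (3/2) μ B (1 - 2 μ B) + (3/2) μ (Od T B x y z)`.  Parity: `ω ∈ Od T B x y z` iff an odd number of the six statements
`T (a x) ω ∈ A, T (b x) ω ∈ A, T (a y) ω ∈ A, …` holds, iff exactly one of `T a ω ∈ Od T A x y z`, `T b ω ∈ Od T A x y z` holds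
(`T a (T x ω) = T x (T a ω)`); so `μ (Od T B x y z) ≤ 2 μ (Od T A x y z)` by `Sy.inv`.  Finally
`(3/2) μ B (1 - 2 μ B) ≤ (3/4) (1 - 2 μ B)`: the difference is `(3/4) (1 - 2 μ B)^2 ≥ 0`. -/
def StWr : Prop := ∀ (Ω : Type) (μ : Set Ω → ℝ) (T : ℕ → Ω → Ω), Sy μ T → ∀ (A : Set Ω) (a b x y z : ℕ), 0 < a → 0 < b →
  0 < x → 0 < y → 0 < z →
  Sp μ T (Wd T A a b) x y z ≤ 3 / 4 * (1 - 2 * μ (Wd T A a b)) + 3 * μ (Od T A x y z)

/-- **Cn** (EASY).  Pointwise, with `N` the number of `a, b, c` with `T · ω ∈ A`: `[N odd] = (number of unequal pairs) - N + 4 [N = 3]`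
(`0 = 0 - 0`, `1 = 2 - 1`, `0 = 2 - 2`, `1 = 0 - 3 + 4`). -/
def StCn : Prop := ∀ (Ω : Type) (μ : Set Ω → ℝ) (T : ℕ → Ω → Ω), Sy μ T → ∀ (A : Set Ω) (a b c : ℕ), 0 < a → 0 < b → 0 < c →
  μ (Od T A a b c) = μ (Wd T A a b) + μ (Wd T A a c) + μ (Wd T A b c) - 3 * μ A + 4 * μ (Mn T A a b c)

/-- **Pa** (EASY).  `Pb T A m ⊆ ⋃ j, Od T A (a j) (b j) (c j)`: let `f n = 1` if `T n ω ∈ A` and `0` otherwise (in `ZMod 2`).  If `ω`
is in no `Od`, then `f (a j) + f (b j) + f (c j) = 0` for all `j`, so `f m = 0`.  `μ (Pb T A m) = μ A` (`Sy.inv`); monotonicity and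
finite subadditivity (induction over a `Finset` of indices). -/
def StPa : Prop := ∀ (Ω : Type) (μ : Set Ω → ℝ) (T : ℕ → Ω → Ω), Sy μ T → ∀ (A : Set Ω) (K : ℕ) (a b c : Fin K → ℕ) (m : ℕ), 0 < m →
  (∀ f : ℕ → ZMod 2, f m = ∑ j, (f (a j) + f (b j) + f (c j))) →
  μ A ≤ ∑ j, μ (Od T A (a j) (b j) (c j))

/-- **Sm** (EASY-MEDIUM, arithmetic).  USES `StGn`, `StTr`, `StWr`, `StCn`, `StPa`.  Let `d = μ A` and suppose that
`56 K μ (Mn T A x y z) < (42 K + 2) d - 21 K - ε` for all `PT x y z`; `K ≥ 1` (for `K = 0` the last part of `Cert` gives `f m = 0`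
for all `f`, absurd).  Put `S = ((42 K + 2) d - 21 K - ε)/(56 K)`, so `μ (Mn ..) ≤ S` for all triples.  Take the certificate
`a, b, c, m`.  `StGn` with `W = 18 K`, the `3 K` words `Wd (a j) (b j)`, `Wd (a j) (c j)`, `Wd (b j) (c j)` (`ι = Fin K × Fin 3` or
`Fin K ⊕ Fin K ⊕ Fin K`) and `ε/2` gives a triple `x, y, z`; with `η = μ (Od T A x y z)`, `s = μ (Mn T A x y z) ≤ S`, `StTr`, `StWr`
and `Σ` the sum of the measures of the `3 K` words:
`-ε/2 ≤ 9 K (3 d (1 - 2 d) - η + 4 s) + (9/4) K - (3/2) Σ + 9 K η = 27 K d (1 - 2 d) + 36 K s + (9/4) K - (3/2) Σ`.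
`StCn` for all `j` and `StPa`: `d ≤ ∑ μ (Od j) = Σ - 3 K d + 4 ∑ μ (Mn j) ≤ Σ - 3 K d + 4 K S`, so `Σ ≥ (3 K + 1) d - 4 K S`.  So
`-ε/2 ≤ 27 K d - 54 K d^2 + 42 K S + (9/4) K - (3/2)(3 K + 1) d`, and `d^2 ≥ d - 1/4`:
`42 K S ≥ (63/2 K + 3/2) d - 63/4 K - ε/2`; times `4/3`: `56 K S ≥ (42 K + 2) d - 21 K - (2/3) ε`, a contradiction to the choice
of `S`. -/
def StSm : Prop := ∀ K : ℕ, Cert K → SysBH K

open Classical in
/-- **Li** (EASY-MEDIUM; close to the first part of `ulg` in `EF/FinF.lean`, with `XUlm.ulim`, `XUlm.qq`, `XUlm.shift`).  `U` an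
ultrafilter `≤ atTop`, `μ S = lim_U |{s ∈ F j | (j, s) ∈ S}| / |F j|`.  `T k p = (p.1, k p.2)`.  Invariance: for `k > 0` and a set `S` let
`T' = {s ∈ F j | (j, s) ∈ S}`.  `XUlm.shift` for `T' ⊆ F j`: the number of `s ∈ F j` with `k s ∈ T'` is between `|T'| - bad` and `|T'|`,
`bad = |F j| - |{s ∈ F j | k s ∈ F j}| = o(|F j|)`; the number of `s ∈ F j` with `(j, k s) ∈ S` differs from it by at most `bad`. -/
def StLi : Prop := ∀ F : ℕ → Finset ℕ, IsFo F → ∃ (U : Ultrafilter ℕ) (μ : Set (ℕ × ℕ) → ℝ), (U : Filter ℕ) ≤ atTop ∧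
  Sy μ (fun k p => (p.1, k * p.2)) ∧
  ∀ S : Set (ℕ × ℕ), Tendsto (fun j => (((F j).filter fun s => (j, s) ∈ S).card : ℝ) / ((F j).card : ℝ)) U (𝓝 (μ S))

/-- **Fn** (EASY-MEDIUM; as the end of `EF/FinF.lean`, `EF/FinG.lean`).  USES `StLi` (write `pr_Fn (h : StLi) : StFn`).  Suppose that
`FinBH K` fails for `ε`.  For every `j` take `k = j`, `δ = 1/(j+1)`: `F j`, `A j ⊆ F j` such that for all `PT x y z` with
`x, y, z ≤ j`: `56 K |{n ∈ F j | x n, y n, z n ∈ A j}| < (42 K + 2) |A j| - 21 K |F j| - ε |F j|`.  `F` is a Foelner sequence (`IsFo`: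
the lemmas of `EF/FinF.lean` after `ulg`).  `StLi`; `A = {p | p.2 ∈ A p.1}`; `SysBH K` for `ε/2` gives `x, y, z`.  Divide the
inequality by `|F j|` (`j ≥ max x y z`) and take the limit along `U`: `μ A` is the limit of `|A j|/|F j|` (`A j ⊆ F j`) and
`μ (Mn T A x y z)` of `|{n ∈ F j | x n, y n, z n ∈ A j}|/|F j|`: `56 K μ (Mn ..) ≤ (42 K + 2) μ A - 21 K - ε`, a contradiction. -/
def StFn : Prop := ∀ K : ℕ, SysBH K → FinBH K

/-- **Ce** (EASY).  The 15 triples (helper75)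
`(99,132,165) (132,176,220) (165,220,275) (468,624,780) (624,832,1040) (780,1040,1300) (900,1200,1500) (500,1200,1300)
(680,1632,1768) (832,1560,1768) (275,1500,1525) (900,1365,1635) (176,468,500) (680,1365,1525) (99,1632,1635)`, `m = 1560`: every other
number occurs exactly twice (`a = ![99, 132, …]` etc., `Fin.sum_univ_succ`, and `x + x = 0` in `ZMod 2`: `CharTwo.add_self_eq_zero`, or
`linear_combination` with `(2 : ZMod 2) = 0`). -/
def StCe : Prop := Cert 15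

/-- the statement of the hand-in -/
def ResBH : Prop := ∀ ε : ℝ, 0 < ε → ∃ (k : ℕ) (δ : ℝ), 0 < δ ∧ ∀ F : Finset ℕ+, F.Nonempty →
  (∀ p : ℕ+, (p : ℕ) ≤ k → (p : ℕ).Prime →
    (1 - δ) * (F.card : ℝ) ≤ ((F.filter fun n => p * n ∈ F).card : ℝ)) →
  ∀ A : Finset ℕ+, A ⊆ F → ∃ x y z : ℕ+, (x : ℕ) ≤ k ∧ (y : ℕ) ≤ k ∧ (z : ℕ) ≤ k ∧ x ^ 2 + y ^ 2 = z ^ 2 ∧
    632 * (A.card : ℝ) - 315 * (F.card : ℝ) - ε * (F.card : ℝ) ≤
      840 * ((F.filter fun n => x * n ∈ A ∧ y * n ∈ A ∧ z * n ∈ A).card : ℝ)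

/-- **Rs** (EASY).  USES `FinBH 15` (write `pr_Rs : StRs`).  Images under the coercion `ℕ+ → ℕ` (`Finset.map` or `Finset.image`, injective;
the model is `KT/FinP.lean`): `42 * 15 + 2 = 632`, `21 * 15 = 315`, `56 * 15 = 840`. -/
def StRs : Prop := FinBH 15 → ResBH

end Pool.Agent.F0f91f8.BH
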